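import Pool.Agent.V8H2.MQ.Count

set_option autoImplicit false

/-!
# Strings of consecutive primes which all start almost prime Cunningham chains
-/

namespace Pool.Agent.Results.MP_c183ae_nt.ConsecutiveStarts

open Filter Finset Polynomial

/-- The map of the chains: `ε = 1` for the chains of the first kind, `ε = -1` for those of the second kind. -/
def S (ε : ℤ) (z : ℤ) : ℤ := 2 * z + ε

/-- `n > 1` has at most `r` prime factors, counted with multiplicity, all of them at least `w`. -/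
def AlmostPrime (r : ℕ) (w : ℝ) (n : ℤ) : Prop :=
  1 < n ∧ n.natAbs.primeFactorsList.length ≤ r ∧ ∀ l : ℕ, l.Prime → (l : ℤ) ∣ n → w ≤ l

/-- the prime number with index `i` (`pr 0 = 2`, `pr 1 = 3`, ...) -/
noncomputable def pr (i : ℕ) : ℕ := Nat.nth Nat.Prime i

theorem S_iter (ε z : ℤ) (j : ℕ) : (S ε)^[j] z = 2 ^ j * z + (2 ^ j - 1) * ε := by
  induction j with
  | zero => simp
  | succ j ih =>
    rw [Function.iterate_succ_apply', ih]
    unfold S
    ring

/-- the product of the terms `1, ..., L - 1` of the chain -/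
noncomputable def f (ε : ℤ) (L : ℕ) : ℤ[X] :=
  ∏ j ∈ range (L - 1), (C (2 ^ (j + 1)) * X + C ((2 ^ (j + 1) - 1) * ε))

theorem f_eval (ε : ℤ) (L : ℕ) (n : ℤ) :
    (f ε L).eval n = ∏ j ∈ range (L - 1), (S ε)^[j + 1] n := by
  unfold f
  rw [eval_prod]
  apply prod_congr rfl
  intro j _
  rw [S_iter]
  simp

theorem odd_term (ε : ℤ) (hε : ε = 1 ∨ ε = -1) (j : ℕ) (n : ℤ) : (S ε)^[j + 1] n ≠ 0 := by
  rw [Function.iterate_succ_apply']
  unfold S
  rcases hε with rfl | rfl <;> omega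

theorem fix (ε : ℤ) (j : ℕ) : (S ε)^[j] (-ε) = -ε := by
  rw [S_iter]
  ring

/-- **Strings of consecutive primes which start almost prime Cunningham chains.** Let `ε = 1` (first kind) or
`ε = -1` (second kind), let `L ≥ 1` be a length, `m ≥ 0`, let `u, q ≥ 1` (for instance `u = q = 1`) and let `a` be
such that the `L` terms of the chain of `a` are coprime to `q`. There are `C`, `R`, `B` and `δ > 0` such that for
every `v` and all large `N` there are at least `N / (log N) ^ B` numbers `k` such that the primes with the `m + 1`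
consecutive indices `u k + v, u (k + 1) + v, ..., u (k + m) + v` of the class of `v` modulo `u` lie in `(N, 2 N]`
and in an interval of length at most `C`, are all `≡ a` modulo `q`, and for each of these primes `p` all the `L`
terms `p, 2 p + ε, 4 p + 3 ε, ...` of the chain of `p` have at most `R` prime factors, all of them at least
`N ^ δ`. For `u = 1` these are `m + 1` consecutive primes. -/
theorem result (ε : ℤ) (hε : ε = 1 ∨ ε = -1) (L m u q a : ℕ) (hL : 1 ≤ L) (hu : 1 ≤ u) (hq : 1 ≤ q)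
    (ha : ∀ j < L, IsCoprime ((S ε)^[j] (a : ℤ)) (q : ℤ)) :
    ∃ (C R B : ℕ) (δ : ℝ), 0 < δ ∧ ∀ v : ℕ, ∀ᶠ N : ℕ in atTop, ∃ T : Finset ℕ,
      (N : ℝ) / Real.log N ^ B ≤ T.card ∧ ∀ k ∈ T,
        N < pr (u * k + v) ∧ pr (u * (k + m) + v) ≤ 2 * N ∧ pr (u * (k + m) + v) ≤ pr (u * k + v) + C ∧
        ∀ i ≤ m, pr (u * (k + i) + v) ≡ a [MOD q] ∧
          ∀ j < L, AlmostPrime R ((N : ℝ) ^ δ) ((S ε)^[j] ((pr (u * (k + i) + v) : ℕ) : ℤ)) := by
  classical
  have hnz : ∀ n : ℤ, n ≠ 0 → (f ε L).eval n ≠ 0 := by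
    intro n _
    rw [f_eval]
    exact prod_ne_zero_iff.2 fun j _ => odd_term ε hε j n
  have hε0 : IsUnit ε := by
    rcases hε with rfl | rfl
    · exact isUnit_one
    · exact isUnit_one.neg
  have hadm : ∀ p : ℕ, p.Prime → ∃ n : ℤ, ¬ (p : ℤ) ∣ n * (f ε L).eval n := by
    intro p hp
    refine ⟨-ε, ?_⟩
    rw [f_eval]
    intro h
    have h1 : IsUnit (-ε * ∏ j ∈ range (L - 1), (S ε)^[j + 1] (-ε)) := by
      apply hε0.neg.mul
      rw [prod_congr rfl (fun j _ => fix ε (j + 1))]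
      rw [prod_const]
      exact hε0.neg.pow _
    have h2 := isUnit_of_dvd_unit h h1
    have h3 := (Nat.prime_iff_prime_int.1 hp).not_isUnit
    exact h3 h2
  have ha' : ∀ p : ℕ, p.Prime → p ∣ q → ¬ (p : ℤ) ∣ (a : ℤ) * (f ε L).eval (a : ℤ) := by
    intro p hp hpq h
    rw [f_eval] at h
    have hpp := Nat.prime_iff_prime_int.1 hp
    have key : ∀ j < L, ¬ (p : ℤ) ∣ (S ε)^[j] (a : ℤ) := by
      intro j hj hd
      have h1 : IsCoprime (p : ℤ) (p : ℤ) := ((ha j hj).of_isCoprime_of_dvd_left hd).of_isCoprime_of_dvd_right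
        (by exact_mod_cast hpq)
      exact hpp.not_isUnit (isCoprime_self.1 h1)
    rcases hpp.dvd_mul.1 h with h1 | h1
    · exact key 0 (by omega) h1
    · obtain ⟨j, hj, hd⟩ := (hpp.dvd_finsetProd_iff _).1 h1
      rw [mem_range] at hj
      exact key (j + 1) (by omega) hd
  obtain ⟨C, R, B, δ, hδ, hmain⟩ := Pool.Agent.V8H2.MQ.index_count (f ε L) hnz hadm q a (by omega) ha' u m hu
  refine ⟨C, R + 1, B, min δ 1, lt_min hδ one_pos, fun v => ?_⟩
  filter_upwards [hmain v, eventually_ge_atTop 3] with N hN hN3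
  obtain ⟨T, hT, hk⟩ := hN
  refine ⟨T, hT, fun k hkT => ?_⟩
  obtain ⟨h1, h2, h3, h4⟩ := hk k hkT
  refine ⟨h1, h2, h3, fun i hi => ?_⟩
  obtain ⟨h5, h6, h7, h8⟩ := h4 i hi
  refine ⟨h5, ?_⟩
  obtain ⟨p, hp⟩ : ∃ p, p = Nat.nth Nat.Prime (u * (k + i) + v) := ⟨_, rfl⟩
  have hpp : p.Prime := by
    rw [hp]
    exact Nat.prime_nth_prime _
  have hpN : N < p := by
    refine h1.trans_le ?_
    rw [hp]
    exact Nat.nth_monotone Nat.infinite_setOfPred_prime (by
      have : u * k ≤ u * (k + i) := Nat.mul_le_mul_left _ (by omega)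
      omega)
  have hNr : (1 : ℝ) ≤ N := by
    have : 1 ≤ N := by omega
    exact_mod_cast this
  have hδ1 : (N : ℝ) ^ min δ 1 ≤ N := by
    calc (N : ℝ) ^ min δ 1 ≤ (N : ℝ) ^ (1 : ℝ) :=
          Real.rpow_le_rpow_of_exponent_le hNr (min_le_right _ _)
      _ = N := Real.rpow_one _
  have hδ2 : (N : ℝ) ^ min δ 1 ≤ (N : ℝ) ^ δ := Real.rpow_le_rpow_of_exponent_le hNr (min_le_left _ _)
  show ∀ j < L, AlmostPrime (R + 1) ((N : ℝ) ^ min δ 1) ((S ε)^[j] ((Nat.nth Nat.Prime (u * (k + i) + v) : ℕ) : ℤ))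
  rw [← hp] at h6 h7 h8 ⊢
  intro j hj
  have hpos : 1 < (S ε)^[j] (p : ℤ) := by
    rw [S_iter]
    have h9 : (1 : ℤ) ≤ 2 ^ j := one_le_pow₀ (by norm_num)
    have h10 : (3 : ℤ) ≤ p := by exact_mod_cast (by omega : 3 ≤ p)
    rcases hε with rfl | rfl
    · nlinarith
    · nlinarith
  refine ⟨hpos, ?_⟩
  rcases Nat.eq_zero_or_pos j with hj0 | hj0
  · rw [hj0]
    refine ⟨?_, ?_⟩
    · show (((p : ℕ) : ℤ).natAbs).primeFactorsList.length ≤ R + 1
      rw [Int.natAbs_natCast, Nat.primeFactorsList_prime hpp]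
      simp
    · intro l hl hld
      have h9 : l ∣ p := by
        rw [Function.iterate_zero, id] at hld
        exact_mod_cast hld
      rw [(Nat.prime_dvd_prime_iff_eq hl hpp).1 h9]
      have : (N : ℝ) ≤ p := by exact_mod_cast hpN.le
      linarith
  · obtain ⟨i', rfl⟩ : ∃ i', j = i' + 1 := ⟨j - 1, by omega⟩
    have hdvd : (S ε)^[i' + 1] (p : ℤ) ∣ (f ε L).eval (p : ℤ) := by
      rw [f_eval]
      exact dvd_prod_of_mem _ (mem_range.2 (by omega))
    obtain ⟨-, g1, g2⟩ := Pool.Agent.R498.MP.AP_dvd R ((N : ℝ) ^ δ) _ _ ⟨h6, h7, h8⟩ hdvd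
    refine ⟨by omega, fun l hl hld => ?_⟩
    exact hδ2.trans (g2 l hl hld)

end Pool.Agent.Results.MP_c183ae_nt.ConsecutiveStarts
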