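import Pool.Agent.V8H10.CC.Main

set_option autoImplicit false

/-!
# Cunningham chains of length `(log X) ^ B` are rare, with a power saving

Let `b ≠ 0` be an integer and `S z = 2 z + b`; for `b = 1` and `b = -1` the chains of primes
`x, S x, S² x, ...` are the Cunningham chains of the first and of the second kind. There is `θ > 1/2`
such that for every `B > 1` and large `X` the following holds in every interval `(M, M + X]` (`M` any
integer), for all `b ≠ 0` with `|b| ≤ X` and all `L ≥ (log X) ^ B`: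

* for all but at most `X ^ (1 - (θ / 2) (1 - 1 / B))` of the integers `x` of the interval, one of the first
  `L` terms `x, S x, ..., S^(L-1) x` has an odd prime factor `r ≤ (log X) ^ (2 B)` with `r ∤ b`;
* at most `X ^ (1 - (θ / 2) (1 - 1 / B))` of the integers `x ≠ -b` of the interval start a chain of `L`
  primes (`x = -b` is the fixed point of `S`).

For large `B` the exponent is smaller than `3 / 4 - η` with a constant `η > 0`.

Proof. If `r` is an odd prime with `r ∤ b` and the order of `2` modulo `r` is at least `D`, `D ≤ L`, then the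
numbers `x` of the exceptional set avoid `D` residue classes modulo `r`. By Goldfeld's theorem a positive
proportion of the primes `r ≤ y` have the property that `r - 1` has a prime factor larger than
`y ^ (1 / 2 + κ)` (`Pool.Agent.N120.TC.t_P`, starting library), and then the order of `2` modulo `r` is larger
than `y ^ (1 / 2 + κ)` with few exceptions (the primes with order `≤ E` divide `∏ (2 ^ t - 1)`, `t ≤ E`).
The arithmetic large sieve (Montgomery's inequality `Pool.Agent.TH314.ET.mont_sqf`, starting library) is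
applied to the products of `u = log X / (2 log y)` such primes, with `y ^ (1 / 2 + κ) = (log X) ^ B`.
-/

namespace Pool.Agent.Results.MP_c183ae_nt.LongChainsRare

/-- The map of the chains: `S b z = 2 z + b`. Chains of the first kind are the chains of primes
`x, S 1 x, S 1 (S 1 x), ...`, those of the second kind the chains `x, S (-1) x, ...`. -/
def S (b z : ℤ) : ℤ := 2 * z + b

/-- The integers `x ∈ (M, M + X]` such that no prime `r ≤ z` with `r ≠ 2` and `r ∤ b` divides one of the
terms `x, S x, ..., S^(L-1) x`. -/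
def Sifted (b M : ℤ) (X L : ℕ) (z : ℝ) : Set ℤ :=
  {x : ℤ | (M < x ∧ x ≤ M + X) ∧ ∀ i < L, ∀ r : ℕ, r.Prime → r ≠ 2 → (r : ℝ) ≤ z → ¬ (r : ℤ) ∣ b →
    ¬ (r : ℤ) ∣ (S b)^[i] x}

/-- The integers `x ∈ (M, M + X]`, `x ≠ -b`, such that all the terms `x, S x, ..., S^(L-1) x` are prime
numbers. -/
def Starts (b M : ℤ) (X L : ℕ) : Set ℤ :=
  {x : ℤ | (M < x ∧ x ≤ M + X) ∧ x ≠ -b ∧ ∀ i < L, ∃ q : ℕ, q.Prime ∧ (S b)^[i] x = q}

/-- **Long Cunningham chains are rare.** -/
theorem result : ∃ θ : ℝ, 1 / 2 < θ ∧ ∀ B : ℝ, 1 < B → ∃ X₀ : ℕ, ∀ X : ℕ, X₀ ≤ X →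
    ∀ L : ℕ, Real.log X ^ B ≤ L → ∀ M b : ℤ, b ≠ 0 → |b| ≤ X →
    ((Sifted b M X L (Real.log X ^ (2 * B))).ncard : ℝ) ≤ (X : ℝ) ^ (1 - θ / 2 * (1 - 1 / B)) ∧
    ((Starts b M X L).ncard : ℝ) ≤ (X : ℝ) ^ (1 - θ / 2 * (1 - 1 / B)) :=
  Pool.Agent.V8H10.CC.main

end Pool.Agent.Results.MP_c183ae_nt.LongChainsRare
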