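import Mathlib
import Pool.Agent.V8H34.PC.Fin

/-!
# Perturbed Cunningham chains of every length, with the times in arithmetic progression

Let `S z = 2 z + b` with `b` odd; `b = 1`, `b = -1` are the maps of the Cunningham chains of the first and of
the second kind, and a chain of length `k + 1` is a prime `p` for which `S(p), S²(p), ..., S^k(p)` are prime.
Here the times are `d, 2 d, ..., k d` and the values are perturbed: for a positive proportion of ALL the
vectors `c` of integers with `|c_i| ≤ H` and divisible by `M` there are at least `N / (log N)^B` primes `p ≤ N`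
for which all `S^d(p) + c_1, S^(2d)(p) + c_2, ..., S^(kd)(p) + c_k` are prime. The size `H` of the
perturbations is any number between a constant and `N / C`, and all odd `b` with `|b| ≤ N / C` are treated at
once. The step `d` is a sum of some of `n` prescribed positive integers `m_1, ..., m_n`, `n` depending only on
`k`; for instance (all `m_j = D`) it is one of `D, 2 D, ..., n D`.

Proof. The forms are `2^t (Λ x + s) - b + Λ v`, where `t = ∑ w_j m_j` for the words `w` of length `n` over
`{0, ..., k}`, `K` forms for every word, with arbitrary different parameters `v < U`. By the coloured theorem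
of Maynard and Tao with the constant `18/5`, uniformly in the forms (`Pool.Agent.Y827.RO.lamRD`), there are a
set of `5/18` of the words and one form for each of them which are prime for many `x`; by the density
Hales-Jewett theorem (`Pool.Agent.Helper903.DHJ.ldhj`) the set contains a combinatorial line, on which the
times are in arithmetic progression. So every choice of the parameters contains a good pattern; a double
counting over all injective choices (`Pool.Agent.V8H34.PC.pigeon`) gives one pattern and one value of the
first parameter for which a positive proportion of the vectors of the other parameters is good.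
-/

set_option autoImplicit false

namespace Pool.Agent.Results.MP_c183ae_nt.PerturbedChains

open Finset Filter

/-- the map `z ↦ 2 z + b`: for `b = 1`, `b = -1` the maps of the Cunningham chains of the first and of the
second kind -/
def S (b : ℤ) (z : ℤ) : ℤ := 2 * z + b

/-- the primes `p ≤ N` for which `S^((i + 1) d)(p) + c i` is a (positive) prime for all `i < k` -/
noncomputable def chains (k N d : ℕ) (b : ℤ) (c : Fin k → ℤ) : Finset ℕ :=
  (Icc 1 N).filter (fun p : ℕ => p.Prime ∧ ∀ i : Fin k,
    ((S b)^[((i : ℕ) + 1) * d] (p : ℤ) + c i).toNat.Prime)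

theorem iter_S (b z : ℤ) (t : ℕ) : (S b)^[t] z = 2 ^ t * z + (2 ^ t - 1) * b := by
  induction t with
  | zero => simp
  | succ t ih =>
    rw [Function.iterate_succ_apply', ih]
    unfold S
    ring

/-- **Perturbed Cunningham chains.** For every `k` there is `n` such that for all `M ≥ 1` and all positive
integers `m_1, ..., m_n` there are `C, B` and `δ > 0` such that for all large `N`, all `H` with
`C ≤ H ≤ N / C` and all odd `b` with `|b| ≤ N / C` the following holds: there is a nonempty set `J` of
indices such that, with `d = ∑_{j ∈ J} m_j`, for at least `δ H^k` of the vectors `c` of integers with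
`|c_i| ≤ H` and `M ∣ c_i` there are at least `N / (log N)^B` primes `p ≤ N` for which
`S^d(p) + c_1, S^(2d)(p) + c_2, ..., S^(kd)(p) + c_k` are all prime. -/
theorem result (k : ℕ) : ∃ n : ℕ, ∀ M : ℕ, 1 ≤ M → ∀ m : Fin n → ℕ, (∀ j, 1 ≤ m j) →
    ∃ (C B : ℕ) (δ : ℝ), 0 < δ ∧ ∀ᶠ N : ℕ in atTop, ∀ H : ℕ, C ≤ H → C * H ≤ N →
    ∀ b : ℤ, Odd b → C * |b| ≤ N →
    ∃ J : Finset (Fin n), J.Nonempty ∧ ∃ 𝒞 : Finset (Fin k → ℤ),
      δ * (H : ℝ) ^ k ≤ (𝒞.card : ℝ) ∧ ∀ c ∈ 𝒞, (∀ i, |c i| ≤ H ∧ (M : ℤ) ∣ c i) ∧
        (N : ℝ) / (Real.log N) ^ B ≤ ((chains k N (∑ j ∈ J, m j) b c).card : ℝ) := by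
  obtain ⟨n, hn⟩ := Pool.Agent.V8H34.PC.chains k
  refine ⟨n, fun M hM m _ => ?_⟩
  obtain ⟨C, B, δ, hδ, h⟩ := hn M hM m
  refine ⟨C, B, δ, hδ, ?_⟩
  filter_upwards [h] with N hN H hH1 hH2 b hb hbN
  obtain ⟨J, hJ, 𝒞, h1, h2⟩ := hN H hH1 hH2 b hb hbN
  refine ⟨J, hJ, 𝒞, h1, fun c hc => ⟨(h2 c hc).1, ?_⟩⟩
  have e : chains k N (∑ j ∈ J, m j) b c =
      Pool.Agent.V8H34.PC.chainSet k N (∑ j ∈ J, m j) b c := by
    unfold chains Pool.Agent.V8H34.PC.chainSet
    apply filter_congr
    intro p _
    simp only [iter_S]
  rw [e]
  exact (h2 c hc).2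

end Pool.Agent.Results.MP_c183ae_nt.PerturbedChains
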