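import Pool.Agent.V8H2.MG.Chain

set_option autoImplicit false

/-!
# A positive proportion of the almost prime Cunningham chains is followed by such chains in the same residue class
-/

namespace Pool.Agent.Results.MP_c183ae_nt.PositiveProportion

open Filter Finset

/-- The map of the chains: `ε = 1` for the chains of the first kind, `ε = -1` for those of the second kind. -/
def S (ε : ℤ) (z : ℤ) : ℤ := 2 * z + ε

open Classical in
/-- The starts of the almost prime chains of length `L` in `(N, 2 N]`: the primes `p` of `(N, 2 N]` such that all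
prime factors of the `L` terms `p, 2 p + ε, 4 p + 3 ε, ...` of the chain of `p` are at least `N ^ δ`. -/
noncomputable def Starts (ε : ℤ) (L : ℕ) (δ : ℝ) (N : ℕ) : Finset ℕ :=
  (Ioc N (2 * N)).filter (fun p => p.Prime ∧ ∀ j < L, ∀ l : ℕ, l.Prime →
    (l : ℤ) ∣ (S ε)^[j] (p : ℤ) → (N : ℝ) ^ δ ≤ l)

open Classical in
/-- The elements `p` of `A` such that `p` and the `m` elements of `A` following `p` (which exist) are all congruent
to `a` modulo `q` and lie in an interval of length at most `D`. -/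
noncomputable def Run (A : Finset ℕ) (m q a : ℕ) (D : ℝ) : Finset ℕ :=
  A.filter (fun p => ∃ x : ℕ → ℕ, x 0 = p ∧
    (∀ j ≤ m, x j ∈ A ∧ x j ≡ a [MOD q] ∧ (x j : ℝ) ≤ p + D) ∧
    ∀ j < m, x j < x (j + 1) ∧ ∀ y ∈ A, ¬ (x j < y ∧ y < x (j + 1)))

theorem S_iter (ε z : ℤ) (j : ℕ) : (S ε)^[j] z = Pool.Agent.V8H2.MG.Tc ε j z := by
  induction j with
  | zero => simp [Pool.Agent.V8H2.MG.Tc]
  | succ j ih =>
    rw [Function.iterate_succ_apply', ih]
    unfold S Pool.Agent.V8H2.MG.Tc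
    ring

/-- **A positive proportion of runs.** Let `ε = 1` (first kind) or `ε = -1` (second kind), `L ≥ 1` the length of
the chains, `m ≥ 0`, `q ≥ 1`, and let `a` be such that the `L` terms of the chain of `a` are coprime to `q`. There
is `δ` with `0 < δ ≤ 1 / 24` such that for every `η > 0` there is `c > 0` such that for all large `N`: for at least
the proportion `c` of all the starts `p` of almost prime chains of length `L` in `(N, 2 N]`, `p` and the `m` next
starts are all `≡ a` modulo `q` and lie in an interval of length at most `η (log N) ^ L`; the number of these `p` is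
also at least `c N / (log N) ^ L`. -/
theorem result (ε : ℤ) (hε : ε = 1 ∨ ε = -1) (L m q a : ℕ) (hL : 1 ≤ L) (hq : 1 ≤ q)
    (ha : ∀ j < L, IsCoprime ((S ε)^[j] (a : ℤ)) (q : ℤ)) :
    ∃ δ : ℝ, 0 < δ ∧ δ ≤ 1 / 24 ∧ ∀ η : ℝ, 0 < η → ∃ c : ℝ, 0 < c ∧ ∀ᶠ N : ℕ in atTop,
      c * ((Starts ε L δ N).card : ℝ) ≤ ((Run (Starts ε L δ N) m q a (η * Real.log N ^ L)).card : ℝ) ∧
      c * (N / Real.log N ^ L) ≤ ((Run (Starts ε L δ N) m q a (η * Real.log N ^ L)).card : ℝ) := by
  classical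
  obtain ⟨g, hLg, hD⟩ := Pool.Agent.V8H2.MG.datC ε hε L hL
  obtain ⟨W, δ, c₁, c₂, hW0, hδ, hδ24, hc₁, hc₂, hdens, hup, hrun⟩ :=
    Pool.Agent.V8H2.MG.runs g (by omega) (Pool.Agent.V8H2.MG.GC ε L) (Pool.Agent.V8H2.MG.DC ε L) hD L L (2 ^ L)
      hL (by omega) hLg (fun p hp hpL => Pool.Agent.V8H2.MG.rtC_ge ε hε L hL p hp hpL)
      (fun p hp hpL => Pool.Agent.V8H2.MG.rtC_le ε L hL p hp hpL) m q a (by omega)
      (fun p hp hpq h => by
        rw [Pool.Agent.V8H2.MG.FC_dvd ε L hL _ p hp] at h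
        obtain ⟨j, hj, h⟩ := h
        rw [← S_iter] at h
        have h1 : IsCoprime (p : ℤ) (p : ℤ) :=
          ((ha j hj).of_isCoprime_of_dvd_left h).of_isCoprime_of_dvd_right (by exact_mod_cast hpq)
        exact (Nat.prime_iff_prime_int.1 hp).not_isUnit (isCoprime_self.1 h1))
  have hS : ∀ N : ℕ, 1 ≤ N → Starts ε L δ N = Pool.Agent.V8H2.MG.SP (Pool.Agent.V8H2.MG.GC ε L) δ N := by
    intro N hN
    ext p
    rw [Pool.Agent.V8H2.MG.mem_SP]
    unfold Starts
    rw [mem_filter, mem_Ioc]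
    constructor
    · rintro ⟨⟨h1, h2⟩, h3, h4⟩
      refine ⟨h1, h2, h3, fun l hl hd => ?_⟩
      have h5 : (l : ℤ) ∣ (p : ℤ) * Pool.Agent.V8H2.MG.GC ε L p := hd.mul_left _
      rw [Pool.Agent.V8H2.MG.FC_dvd ε L hL _ l hl] at h5
      obtain ⟨j, hj, h5⟩ := h5
      rw [← S_iter] at h5
      exact h4 j hj l hl h5
    · rintro ⟨h1, h2, h3, h4⟩
      refine ⟨⟨h1, h2⟩, h3, fun j hj l hl hd => ?_⟩
      rw [S_iter] at hd
      have h5 : (l : ℤ) ∣ (p : ℤ) * Pool.Agent.V8H2.MG.GC ε L p :=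
        (Pool.Agent.V8H2.MG.FC_dvd ε L hL _ l hl).2 ⟨j, hj, hd⟩
      rcases (Nat.prime_iff_prime_int.1 hl).dvd_mul.1 h5 with h6 | h6
      · have h7 : l ∣ p := by exact_mod_cast h6
        rw [(Nat.prime_dvd_prime_iff_eq hl h3).1 h7]
        have hN1 : (1 : ℝ) ≤ N := by exact_mod_cast hN
        calc (N : ℝ) ^ δ ≤ (N : ℝ) ^ (1 : ℝ) := Real.rpow_le_rpow_of_exponent_le hN1 (by linarith)
          _ = N := Real.rpow_one _
          _ ≤ p := by exact_mod_cast h1.le
      · exact h4 l hl h6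
  refine ⟨δ, hδ, hδ24, fun η hη => ?_⟩
  obtain ⟨c, hc, hev⟩ := hrun (η * c₁) (by positivity)
  refine ⟨min (c / 3) (c * c₁), lt_min (by positivity) (by positivity), ?_⟩
  have hlogT : Tendsto (fun N : ℕ => Real.log N) atTop atTop :=
    Real.tendsto_log_atTop.comp (tendsto_natCast_atTop_atTop (R := ℝ))
  filter_upwards [hdens, hup, hev, hlogT.eventually_ge_atTop 1, eventually_ge_atTop 1] with N h1 h2 h3 h4 h5
  obtain ⟨v, hv⟩ : ∃ v : ℝ, v = Pool.Agent.V8H2.MG.vv (fun n => n * Pool.Agent.V8H2.MG.GC ε L n) W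
    (Pool.Agent.V8H2.MG.zf δ N) := ⟨_, rfl⟩
  rw [← hv] at h1 h2 h3
  have hv0 : 0 < v := by rw [hv]; exact Pool.Agent.V8H2.MG.vv_pos hD W _
  have hl0 : 0 < Real.log (N : ℝ) := by linarith
  have hN0 : (0 : ℝ) < N := by exact_mod_cast h5
  have hRun : Run (Starts ε L δ N) m q a (η * Real.log N ^ L) =
      Pool.Agent.V8H2.MG.Run (Starts ε L δ N) m q a (η * Real.log N ^ L) := rfl
  have h6 := h3 (η * Real.log N ^ L) (by
    rw [div_le_iff₀ hv0]
    have h7 := h1.1
    rw [div_le_iff₀ (by positivity)] at h7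
    calc η * c₁ ≤ η * (v * Real.log N ^ L) := by gcongr
      _ = η * Real.log N ^ L * v := by ring)
  rw [← hS N h5] at h6 h2
  rw [hRun]
  constructor
  · calc min (c / 3) (c * c₁) * ((Starts ε L δ N).card : ℝ) ≤ c / 3 * (3 * (N * v)) := by
          apply mul_le_mul (min_le_left _ _) h2 (Nat.cast_nonneg _) (by positivity)
      _ = c * (N * v) := by ring
      _ ≤ _ := h6
  · calc min (c / 3) (c * c₁) * (N / Real.log N ^ L) ≤ c * c₁ * (N / Real.log N ^ L) := by
          apply mul_le_mul_of_nonneg_right (min_le_right _ _) (by positivity)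
      _ = c * (N * (c₁ / Real.log N ^ L)) := by ring
      _ ≤ c * (N * v) := by
          have := h1.1
          gcongr
      _ ≤ _ := h6

end Pool.Agent.Results.MP_c183ae_nt.PositiveProportion
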